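import Pool.Agent.Helper36.Pin.Defs3

/-!
# Module PQ-J2: pinning a set with at least three vertices is global rigidity of `G + K(P)`
-/

namespace Pool.Agent.Helper36.Pin

open Finset Module

variable {V : Type} [Fintype V] [DecidableEq V]

namespace J2

omit [Fintype V] in
/-- three points of a generic realization are not collinear -/
theorem not_coll (p : V → Fin 2 → ℝ) (hp : Generic p) (a b c : V) (hab : a ≠ b)
    (hac : a ≠ c) (hbc : b ≠ c) :
    (p b 0 - p a 0) * (p c 1 - p a 1) - (p b 1 - p a 1) * (p c 0 - p a 0) ≠ 0 := by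
  classical
  set P : MvPolynomial (V × Fin 2) ℚ :=
    (MvPolynomial.X (b, 0) - MvPolynomial.X (a, 0)) *
      (MvPolynomial.X (c, 1) - MvPolynomial.X (a, 1)) -
    (MvPolynomial.X (b, 1) - MvPolynomial.X (a, 1)) *
      (MvPolynomial.X (c, 0) - MvPolynomial.X (a, 0)) with hP
  have hP0 : P ≠ 0 := by
    intro h0
    have := congrArg (MvPolynomial.eval
      (fun x : V × Fin 2 => if x = (b, 0) then (1 : ℚ) else if x = (c, 1) then 1 else 0)) h0
    simp [hP, hab, hac, hbc, hbc.symm] at this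
  intro h
  apply hP0
  have hinj : Function.Injective
      (MvPolynomial.aeval (fun x : V × Fin 2 => p x.1 x.2) : MvPolynomial (V × Fin 2) ℚ →ₐ[ℚ] ℝ) :=
    hp
  apply hinj
  rw [map_zero, ← h]
  simp [hP]

theorem dsq_comm (x y : Fin 2 → ℝ) : dsq x y = dsq y x := by
  unfold dsq; ring

theorem dsq_self (x : Fin 2 → ℝ) : dsq x x = 0 := by
  unfold dsq; ring

/-- the distances to three points which are not collinear determine a point -/
theorem eq_of_dsq (a b c x y : Fin 2 → ℝ)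
    (hd : (b 0 - a 0) * (c 1 - a 1) - (b 1 - a 1) * (c 0 - a 0) ≠ 0)
    (ha : dsq x a = dsq y a) (hb : dsq x b = dsq y b) (hc : dsq x c = dsq y c) : x = y := by
  unfold dsq at ha hb hc
  have h1 : (x 0 - y 0) * (b 0 - a 0) + (x 1 - y 1) * (b 1 - a 1) = 0 := by linarith
  have h2 : (x 0 - y 0) * (c 0 - a 0) + (x 1 - y 1) * (c 1 - a 1) = 0 := by linarith
  have h3 : (x 0 - y 0) * ((b 0 - a 0) * (c 1 - a 1) - (b 1 - a 1) * (c 0 - a 0)) = 0 := by
    linear_combination (c 1 - a 1) * h1 - (b 1 - a 1) * h2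
  have h4 : (x 1 - y 1) * ((b 0 - a 0) * (c 1 - a 1) - (b 1 - a 1) * (c 0 - a 0)) = 0 := by
    linear_combination (b 0 - a 0) * h2 - (c 0 - a 0) * h1
  have h5 := (mul_eq_zero.1 h3).resolve_right hd
  have h6 := (mul_eq_zero.1 h4).resolve_right hd
  funext i
  fin_cases i
  · simpa using sub_eq_zero.1 h5
  · simpa using sub_eq_zero.1 h6

/-- the isometry of the plane which moves one triangle to another one -/
theorem exists_isometry (a b c a' b' c' : Fin 2 → ℝ)
    (hd : (b 0 - a 0) * (c 1 - a 1) - (b 1 - a 1) * (c 0 - a 0) ≠ 0)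
    (hab : dsq a' b' = dsq a b) (hac : dsq a' c' = dsq a c) (hbc : dsq b' c' = dsq b c) :
    ∃ g : (Fin 2 → ℝ) → Fin 2 → ℝ, (∀ x y, dsq (g x) (g y) = dsq x y) ∧ g a' = a ∧ g b' = b ∧
      g c' = c := by
  unfold dsq at hab hac hbc
  set x1 := b 0 - a 0 with hx1
  set y1 := b 1 - a 1 with hy1
  set x2 := c 0 - a 0 with hx2
  set y2 := c 1 - a 1 with hy2
  set u1 := b' 0 - a' 0 with hu1
  set v1 := b' 1 - a' 1 with hv1
  set u2 := c' 0 - a' 0 with hu2
  set v2 := c' 1 - a' 1 with hv2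
  have e1 : u1 ^ 2 + v1 ^ 2 = x1 ^ 2 + y1 ^ 2 := by
    rw [hu1, hv1, hx1, hy1]; linarith
  have e2 : u2 ^ 2 + v2 ^ 2 = x2 ^ 2 + y2 ^ 2 := by
    rw [hu2, hv2, hx2, hy2]; linarith
  have e3 : u1 * u2 + v1 * v2 = x1 * x2 + y1 * y2 := by
    rw [hu1, hv1, hx1, hy1, hu2, hv2, hx2, hy2]; linarith
  set D := u1 * v2 - v1 * u2 with hD
  have hD2 : D ^ 2 = (x1 * y2 - y1 * x2) ^ 2 := by
    have i1 : D ^ 2 = (u1 ^ 2 + v1 ^ 2) * (u2 ^ 2 + v2 ^ 2) - (u1 * u2 + v1 * v2) ^ 2 := by
      rw [hD]; ring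
    rw [i1, e1, e2, e3]; ring
  have hD0 : D ≠ 0 := by
    intro h0
    rw [h0] at hD2
    have : (x1 * y2 - y1 * x2) = 0 := by
      have : (x1 * y2 - y1 * x2) ^ 2 = 0 := by rw [← hD2]; ring
      exact pow_eq_zero_iff (two_ne_zero) |>.1 this
    exact hd this
  set α := (x1 * v2 - x2 * v1) / D with hα
  set β := (x2 * u1 - x1 * u2) / D with hβ
  set γ := (y1 * v2 - y2 * v1) / D with hγ
  set δ := (y2 * u1 - y1 * u2) / D with hδ
  have f1 : α * u1 + β * v1 = x1 := by
    rw [hα, hβ]; field_simp; rw [hD]; ring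
  have f2 : α * u2 + β * v2 = x2 := by
    rw [hα, hβ]; field_simp; rw [hD]; ring
  have f3 : γ * u1 + δ * v1 = y1 := by
    rw [hγ, hδ]; field_simp; rw [hD]; ring
  have f4 : γ * u2 + δ * v2 = y2 := by
    rw [hγ, hδ]; field_simp; rw [hD]; ring
  -- orthogonality
  have o1 : α ^ 2 + γ ^ 2 = 1 := by
    have : (α ^ 2 + γ ^ 2) * D ^ 2 = 1 * D ^ 2 := by
      have hαD : α * D = x1 * v2 - x2 * v1 := by rw [hα]; field_simp
      have hγD : γ * D = y1 * v2 - y2 * v1 := by rw [hγ]; field_simp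
      calc (α ^ 2 + γ ^ 2) * D ^ 2 = (α * D) ^ 2 + (γ * D) ^ 2 := by ring
        _ = (x1 ^ 2 + y1 ^ 2) * v2 ^ 2 + (x2 ^ 2 + y2 ^ 2) * v1 ^ 2
            - 2 * (x1 * x2 + y1 * y2) * v1 * v2 := by rw [hαD, hγD]; ring
        _ = 1 * D ^ 2 := by rw [← e1, ← e2, ← e3, hD]; ring
    exact mul_right_cancel₀ (pow_ne_zero 2 hD0) this
  have o2 : β ^ 2 + δ ^ 2 = 1 := by
    have : (β ^ 2 + δ ^ 2) * D ^ 2 = 1 * D ^ 2 := by
      have hβD : β * D = x2 * u1 - x1 * u2 := by rw [hβ]; field_simp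
      have hδD : δ * D = y2 * u1 - y1 * u2 := by rw [hδ]; field_simp
      calc (β ^ 2 + δ ^ 2) * D ^ 2 = (β * D) ^ 2 + (δ * D) ^ 2 := by ring
        _ = (x1 ^ 2 + y1 ^ 2) * u2 ^ 2 + (x2 ^ 2 + y2 ^ 2) * u1 ^ 2
            - 2 * (x1 * x2 + y1 * y2) * u1 * u2 := by rw [hβD, hδD]; ring
        _ = 1 * D ^ 2 := by rw [← e1, ← e2, ← e3, hD]; ring
    exact mul_right_cancel₀ (pow_ne_zero 2 hD0) this
  have o3 : α * β + γ * δ = 0 := by
    have : (α * β + γ * δ) * D ^ 2 = 0 * D ^ 2 := by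
      have hαD : α * D = x1 * v2 - x2 * v1 := by rw [hα]; field_simp
      have hγD : γ * D = y1 * v2 - y2 * v1 := by rw [hγ]; field_simp
      have hβD : β * D = x2 * u1 - x1 * u2 := by rw [hβ]; field_simp
      have hδD : δ * D = y2 * u1 - y1 * u2 := by rw [hδ]; field_simp
      calc (α * β + γ * δ) * D ^ 2 = (α * D) * (β * D) + (γ * D) * (δ * D) := by ring
        _ = (x1 * x2 + y1 * y2) * (u1 * v2 + v1 * u2) - (x1 ^ 2 + y1 ^ 2) * (u2 * v2)
            - (x2 ^ 2 + y2 ^ 2) * (u1 * v1) := by rw [hαD, hβD, hγD, hδD]; ring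
        _ = 0 * D ^ 2 := by rw [← e1, ← e2, ← e3]; ring
    exact mul_right_cancel₀ (pow_ne_zero 2 hD0) this
  refine ⟨fun x => ![a 0 + α * (x 0 - a' 0) + β * (x 1 - a' 1),
    a 1 + γ * (x 0 - a' 0) + δ * (x 1 - a' 1)], ?_, ?_, ?_, ?_⟩
  · intro x y
    simp only [dsq, Matrix.cons_val_zero, Matrix.cons_val_one]
    linear_combination (x 0 - y 0) ^ 2 * o1 + (x 1 - y 1) ^ 2 * o2 +
      2 * (x 0 - y 0) * (x 1 - y 1) * o3
  · funext i
    fin_cases i <;> simp
  · funext i
    fin_cases i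
    · simp only [Fin.zero_eta, Matrix.cons_val_zero]
      linear_combination f1 + hu1 * 0
    · simp only [Fin.mk_one, Matrix.cons_val_one, Matrix.cons_val_zero]
      linear_combination f3
  · funext i
    fin_cases i
    · simp only [Fin.zero_eta, Matrix.cons_val_zero]
      linear_combination f2
    · simp only [Fin.mk_one, Matrix.cons_val_one, Matrix.cons_val_zero]
      linear_combination f4

end J2

/-- a set with at least three elements pins `G` iff `G + K(P)` is globally rigid -/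
theorem geomPins_large (G : SimpleGraph V) (P : Finset V) (hP : 3 ≤ P.card) :
    GeomPins G P ↔ GloballyRigid (G ⊔ completeOn P) := by
  classical
  obtain ⟨Q, hQP, hQ3⟩ := Finset.exists_subset_card_eq hP
  obtain ⟨a, b, c, hab, hac, hbc, hQ⟩ := Finset.card_eq_three.1 hQ3
  have ha : a ∈ P := hQP (by simp [hQ])
  have hb : b ∈ P := hQP (by simp [hQ])
  have hc : c ∈ P := hQP (by simp [hQ])
  constructor
  · intro h p hp q hq
    have hd := J2.not_coll p hp a b c hab hac hbc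
    have hPd : ∀ u ∈ P, ∀ v ∈ P, dsq (q u) (q v) = dsq (p u) (p v) := by
      intro u hu v hv
      by_cases huv : u = v
      · subst huv
        rw [J2.dsq_self, J2.dsq_self]
      · exact hq u v (Or.inr ⟨huv, hu, hv⟩)
    obtain ⟨g, hg, hga, hgb, hgc⟩ := J2.exists_isometry (p a) (p b) (p c) (q a) (q b) (q c) hd
      (hPd a ha b hb) (hPd a ha c hc) (hPd b hb c hc)
    have hgq : (fun v => g (q v)) = p := by
      apply h p hp (fun v => g (q v))
      · intro u v huv
        simp only [hg]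
        exact hq u v (Or.inl huv)
      · intro v hv
        apply J2.eq_of_dsq (p a) (p b) (p c) _ _ hd
        · rw [← hga, hg, hga]; exact hPd v hv a ha
        · rw [← hgb, hg, hgb]; exact hPd v hv b hb
        · rw [← hgc, hg, hgc]; exact hPd v hv c hc
    intro u v
    rw [← hg (q u) (q v)]
    have hu := congrFun hgq u
    have hv := congrFun hgq v
    rw [hu, hv]
  · intro h p hp q hq hqP
    have hd := J2.not_coll p hp a b c hab hac hbc
    have hall := h p hp q (by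
      rintro u v (huv | ⟨huv, hu, hv⟩)
      · exact hq u v huv
      · rw [hqP u hu, hqP v hv])
    funext w
    apply J2.eq_of_dsq (p a) (p b) (p c) _ _ hd
    · rw [← hall w a, hqP a ha]
    · rw [← hall w b, hqP b hb]
    · rw [← hall w c, hqP c hc]

end Pool.Agent.Helper36.Pin
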